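import Pool.Agent.MP_fcd29e_an.H11.CS

/-!
The global smooth invariant functions `A`, `Y`, `G`.
-/

set_option autoImplicit false

open MeasureTheory Complex Set Filter Topology Metric Pool.Agent.MP_fcd29e_an.H81
  Pool.Agent.MP_fcd29e_an.H31 Pool.Agent.MP_fcd29e_an.H11
open scoped ContDiff ComplexConjugate

namespace Pool.Agent.MP_fcd29e_an.H42

namespace Glx

variable {ι : Type} [Fintype ι] {N : ℕ} {J δ : Type} [Fintype δ] {d : Data ι N J δ}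

/-- Extension of a function given in charts. -/
lemma ext (hQP : SQP) (hCH : SCH) (hEX : SEX) (hd : d.Good) (hK : Cone d.K)
    (hKc : IsClosed (d.K ∪ {0})) (T : Set (V ι)) (S : Set (E N)) (r : V ι → V ι)
    (hr : ContDiff ℝ ∞ r) (hS : Cone S)
    (hST : ∀ Z ∈ S, ∃ i, ∃ z ∈ d.D i, ∃ y ∈ T, ∃ c : ℂ, c ≠ 0 ∧ Z = c • d.Φ i z y)
    (hTS : ∀ i, ∀ z ∈ d.D i, ∀ y ∈ T, d.Φ i z y ∈ S)
    (hrT : ∀ x ∈ cone ι, ∀ u ∈ Uc x, xp x (r u) ∈ T)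
    (hch : ∀ x ∈ cone ι, ∀ u ∈ Uc x, ∀ (Z : E N) (P : Prop), (Z ∈ d.S ↔ P) →
      (Z ∈ d.K ↔ P ∧ Jm u = 0) → Z ∈ S → P ∧ r u = u)
    (F : J → ℂ × V ι → ℝ) (b : Prop)
    (hF : ∀ i, ∀ z ∈ d.D i, ∀ y ∈ T, ContDiffAt ℝ ∞ (F i) (z, y) ∧ (b → 0 ≤ F i (z, y)))
    (hinv : ∀ i j, ∀ z ∈ d.D i, ∀ z' ∈ d.D j, ∀ y ∈ T, ∀ y' ∈ T, ∀ c : ℂ, c ≠ 0 →
      d.Φ i z y = c • d.Φ j z' y' → F i (z, y) = F j (z', y')) :
    ∃ (A : E N → ℝ) (U : Set (E N)), IsOpen U ∧ d.K ⊆ U ∧ ContDiffOn ℝ ∞ A (E0 N) ∧ Inv A ∧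
      (b → ∀ Z, 0 ≤ A Z) ∧
      ∀ i, ∀ z ∈ d.D i, ∀ y ∈ T, d.Φ i z y ∈ U → A (d.Φ i z y) = F i (z, y) := by
  classical
  obtain ⟨f, key⟩ : ∃ f : E N → ℝ, ∀ i, ∀ z ∈ d.D i, ∀ y ∈ T, ∀ c : ℂ, c ≠ 0 →
      f (c • d.Φ i z y) = F i (z, y) := by
    refine ⟨fun Z => if h : ∃ q : J × ℂ × V ι, q.2.1 ∈ d.D q.1 ∧ q.2.2 ∈ T ∧ ∃ c : ℂ, c ≠ 0 ∧
      Z = c • d.Φ q.1 q.2.1 q.2.2 then F h.choose.1 h.choose.2 else 0, fun i z hz y hy c hc => ?_⟩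
    have h : ∃ q : J × ℂ × V ι, q.2.1 ∈ d.D q.1 ∧ q.2.2 ∈ T ∧ ∃ c' : ℂ, c' ≠ 0 ∧
      c • d.Φ i z y = c' • d.Φ q.1 q.2.1 q.2.2 := ⟨(i, z, y), hz, hy, c, hc, rfl⟩
    simp only [dif_pos h]
    obtain ⟨h1, h2, c', hc', h3⟩ := h.choose_spec
    refine (hinv i _ z hz _ h1 y hy _ h2 (c⁻¹ * c') (mul_ne_zero (inv_ne_zero hc) hc') ?_).symm
    rw [mul_smul, ← h3, inv_smul_smul₀ hc]
  obtain ⟨A, U, hU, hKU, hA, hI, hb, hAf⟩ := hEX N d.K S f b hK hKc hS (fun c hc Z hZ => by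
    obtain ⟨i, z, hz, y, hy, c', hc', rfl⟩ := hST Z hZ
    rw [smul_smul, key i z hz y hy _ (mul_ne_zero hc hc'), key i z hz y hy _ hc']) (by
    rintro k ⟨i, z₀, hz₀, x, hx, c, hc, rfl⟩
    refine ⟨c⁻¹, inv_ne_zero hc, ?_⟩
    rw [inv_smul_smul₀ hc]
    obtain ⟨W, -, -, ⟨inv, ha, h0, hi⟩, hev, -⟩ := hCH ι N J δ d hd i z₀ hz₀ x hx
    refine ⟨fun Z => F i ((inv Z).2.1, xp x (r ((inv Z).2.2.1 : V ι))), ?_⟩
    have hc2 : Tendsto (fun Z => (inv Z).2) (𝓝 (d.Φ i z₀ x)) (𝓝 (z₀, 0, 0)) := by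
      have := ha.continuousAt.snd.tendsto
      rwa [h0] at this
    have hc1 : ∀ᶠ Z in 𝓝 (d.Φ i z₀ x), (inv Z).1 ≠ 0 :=
      ha.continuousAt.fst.eventually_ne (by rw [h0]; exact one_ne_zero)
    filter_upwards [hc2.eventually hev, hc1, hi, ha.eventually_analyticAt] with Z h1 h2 h3 h4
    obtain ⟨hz, -, -, hS', hK'⟩ := h1
    have hu := ((inv Z).2.2.1).2
    have hy := hrT x hx _ hu
    refine ⟨?_, (hF i _ hz _ hy).2, fun hZ => ?_⟩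
    · have a1 : ContDiffAt ℂ ∞ inv Z := h4.contDiffAt
      have a2 : ContDiffAt ℝ ∞ (fun Z => (inv Z).2.1) Z := a1.snd.fst.restrict_scalars ℝ
      have a3 : ContDiffAt ℝ ∞ (fun Z => ((inv Z).2.2.1 : V ι)) Z :=
        (((Uc x).subtypeL.contDiff.contDiffAt.comp Z a1.snd.snd.fst)).restrict_scalars ℝ
      have a4 : ContDiffAt ℝ ∞ (xp x) (r ((inv Z).2.2.1 : V ι)) :=
        ((hQP ι x hx).2.2.2.2.1 _).contDiffAt.restrict_scalars ℝ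
      have a5 := a4.comp Z (hr.contDiffAt.comp Z a3)
      exact (hF i _ hz _ hy).1.comp Z (a2.prodMk a5)
    · have h5 : d.Ψ i x W (inv Z).2 ∈ S := by
        have := hS.2 _ (inv_ne_zero h2) _ (h3.symm ▸ hZ : (inv Z).1 • d.Ψ i x W (inv Z).2 ∈ S)
        rwa [inv_smul_smul₀ h2] at this
      obtain ⟨h6, h7⟩ := hch x hx _ hu _ _ hS' hK' h5
      have h8 : Z = (inv Z).1 • d.Φ i (inv Z).2.1 (xp x (r ((inv Z).2.2.1 : V ι))) := by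
        rw [h7]
        refine h3.symm.trans ?_
        simp only [Data.Ψ, h6, Submodule.coe_zero, add_zero]
      exact ((congrArg f h8).trans (key i _ hz _ hy _ h2)).symm)
  refine ⟨A, U, hU, hKU, hA, hI, hb, fun i z hz y hy h => ?_⟩
  rw [hAf _ h (hTS i z hz y hy), ← key i z hz y hy 1 one_ne_zero, one_smul]

lemma smcj : ContDiff ℝ ∞ (cj : V ι → V ι) := by
  unfold cj
  have h : ContDiff ℝ ∞ (fun z : ℂ => conj z) := Complex.conjCLE.contDiff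
  refine (h.comp contDiff_fst).prodMk (ContDiff.prodMk ?_ ?_)
  · exact contDiff_pi.2 fun k => h.comp (by fun_prop)
  · exact contDiff_pi.2 fun k => h.comp (by fun_prop)

/-- Extension from `K`. -/
lemma extK (hGR : SGR) (hQP : SQP) (hCH : SCH) (hEX : SEX) (hd : d.Good) (hK : Cone d.K)
    (hKc : IsClosed (d.K ∪ {0})) (F : J → ℂ × V ι → ℝ) (b : Prop)
    (hF : ∀ i, ∀ z ∈ d.D i, ∀ y ∈ cone ι, ContDiffAt ℝ ∞ (F i) (z, y) ∧ (b → 0 ≤ F i (z, y)))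
    (hhom : ∀ i, ∀ z ∈ d.D i, ∀ y ∈ cone ι, ∀ l : ℝ, 0 < l → F i (z, (l : ℂ) • y) = F i (z, y))
    (heq : ∀ i j, ∀ z ∈ d.D i, ∀ z' ∈ d.D j, ∀ y ∈ cone ι, ∀ y' ∈ cone ι, ∀ c : ℂ, c ≠ 0 →
      d.Φ i z y = c • d.Φ j z' y' → d.w2 i z = ‖c‖ ^ 2 * d.w2 j z' →
      (∀ e, c * d.Γ i e (z, y) = d.Γ j e (z', y')) → ‖c‖ ^ 4 * d.g i (z, y) = d.g j (z', y') →
      d.φ i (z, y) = d.φ j (z', y') → F i (z, y) = F j (z', y')) :
    ∃ A : E N → ℝ, ContDiffOn ℝ ∞ A (E0 N) ∧ Inv A ∧ (b → ∀ Z, 0 ≤ A Z) ∧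
      ∀ i, ∀ z ∈ d.D i, ∀ y ∈ cone ι, A (d.Φ i z y) = F i (z, y) := by
  have hmem : ∀ i, ∀ z ∈ d.D i, ∀ y ∈ cone ι, d.Φ i z y ∈ d.K := fun i z hz y hy =>
    ⟨i, z, hz, y, hy, 1, one_ne_zero, (one_smul _ _).symm⟩
  obtain ⟨A, U, -, hKU, hA, hI, hb, h⟩ := ext hQP hCH hEX hd hK hKc (cone ι) d.K rp
    ((contDiff_id.add smcj).const_smul (1 / 2 : ℂ))
    hK (fun Z hZ => hZ) hmem
    (fun x hx u hu => ((hQP ι x hx).1 u hu).2.2.2.1)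
    (fun x hx u hu Z P _ h2 hZ => ⟨(h2.1 hZ).1, ((hQP ι x hx).1 u hu).2.2.2.2.1 (h2.1 hZ).2⟩)
    F b hF (fun i j z hz z' hz' y hy y' hy' c hc h => by
      have hB : B (c • y') (c • y') = 0 := by
        rw [(hGR.bil ι y' y' (c • y') c).2.2.2.1, (hGR.bil ι y' (c • y') y' c).1,
          (hGR.bil ι y' y' y' c).2.2.2.1, hy'.2.1, mul_zero, mul_zero]
      obtain ⟨c₀, G, hc₀, hG, h1, h2, h3⟩ := hd.compat i j z hz z' hz' y (c • y')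
        (hGR.cn ι y hy).1 hy.2.1 hB (by rw [h, map_smul])
      have hGy := hG.fut y hy
      have h4 : c₀ • G y = c • y' := hd.inj j z' hz' (by rw [map_smul, map_smul, ← h1, h])
      have h5 : (c⁻¹ * c₀) • G y = y' := by rw [mul_smul, h4, inv_smul_smul₀ hc]
      obtain ⟨l, hl, h6⟩ := (hGR.cn ι _ hGy).2.2.2.2 _ (h5 ▸ hy')
      rw [← h5, h6, hhom j z' hz' _ hGy l hl]
      exact heq i j z hz z' hz' y hy _ hGy c₀ hc₀ (h1 y) h2 (h3 y hy).1 (h3 y hy).2.1 (h3 y hy).2.2)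
  exact ⟨A, hA, hI, hb, fun i z hz y hy => h i z hz y hy (hKU (hmem i z hz y hy))⟩

lemma smΦ (hd : d.Good) {i : J} {z : ℂ} (hz : z ∈ d.D i) (y : V ι) :
    ContDiffAt ℝ ∞ (fun p : ℂ × V ι => d.Φ i p.1 p.2) (z, y) := by
  have h1 : ContDiffAt ℂ ∞ (fun p : ℂ × V ι => d.Φ i p.1) (z, y) :=
    ContDiffAt.comp (z, y) (g := d.Φ i) (hd.hΦ i z hz).contDiffAt contDiffAt_fst
  exact (h1.clm_apply contDiffAt_snd).restrict_scalars ℝ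

lemma neΦ (hd : d.Good) {i : J} {z : ℂ} (hz : z ∈ d.D i) {y : V ι} (hy : y ≠ 0) :
    0 < ‖d.Φ i z y‖ := norm_pos_iff.2 fun h => hy (hd.inj i z hz (by rw [h, map_zero]))

lemma smw (hd : d.Good) {i : J} {z : ℂ} (hz : z ∈ d.D i) (y : V ι) :
    ContDiffAt ℝ ∞ (fun p : ℂ × V ι => d.w2 i p.1) (z, y) :=
  ContDiffAt.comp (z, y) (g := d.w2 i) (hd.hw i z hz).1 contDiffAt_fst

lemma smΘ (hGR : SGR) (hd : d.Good) {i : J} {z : ℂ} (hz : z ∈ d.D i) {y : V ι}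
    (hy : y ∈ cone ι) :
    ContDiffAt ℝ ∞ (fun p : ℂ × V ι => d.Θ i p.1 p.2) (z, y) ∧ 0 < d.Θ i z y := by
  refine ⟨?_, mul_pos (hd.hg i z hz y hy).2 (pow_pos (neΦ hd hz (hGR.cn ι y hy).1) _)⟩
  have h := (hd.hg i z hz y hy).1.mul (((smΦ hd hz y).norm_sq ℂ).pow 2)
  simp only [← pow_mul] at h
  exact h

lemma homΘ (hd : d.Good) {i : J} {z : ℂ} (hz : z ∈ d.D i) {y : V ι} (hy : y ∈ cone ι) {l : ℝ}
    (hl : 0 < l) : d.Θ i z ((l : ℂ) • y) = l ^ 22 * d.Θ i z y := by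
  simp only [Data.Θ, (hd.hom i z hz y hy l hl).2.1, map_smul, norm_smul, Complex.norm_real,
    Real.norm_eq_abs, abs_of_pos hl]
  ring

omit [Fintype δ] in
lemma eqΘ {i j : J} {z z' : ℂ} {y y' : V ι} {c : ℂ} (h1 : d.Φ i z y = c • d.Φ j z' y')
    (h2 : ‖c‖ ^ 4 * d.g i (z, y) = d.g j (z', y')) : d.Θ i z y = d.Θ j z' y' := by
  simp only [Data.Θ, h1, ← h2, norm_smul]
  ring

lemma exA (hGR : SGR) (hQP : SQP) (hCH : SCH) (hEX : SEX) (hd : d.Good) (hK : Cone d.K)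
    (hKc : IsClosed (d.K ∪ {0})) :
    ∃ A : E N → ℝ, ContDiffOn ℝ ∞ A (E0 N) ∧ Inv A ∧ (True → ∀ Z, 0 ≤ A Z) ∧
      ∀ i, ∀ z ∈ d.D i, ∀ y ∈ cone ι, A (d.Φ i z y) =
        ‖d.Φ i z y‖ ^ 2 / (d.w2 i z * d.φ i (z, y) * d.Θ i z y) := by
  refine extK hGR hQP hCH hEX hd hK hKc
    (fun i p => ‖d.Φ i p.1 p.2‖ ^ 2 / (d.w2 i p.1 * d.φ i p * d.Θ i p.1 p.2)) True
    (fun i z hz y hy => ?_) (fun i z hz y hy l hl => ?_)
    fun i j z hz z' hz' y hy y' hy' c hc h1 h2 _ h4 h5 => ?_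
  · have hp := mul_pos (mul_pos (hd.hw i z hz).2 (hd.hφ i z hz y hy).2) (smΘ hGR hd hz hy).2
    exact ⟨((smΦ hd hz y).norm_sq ℂ).div
      (((smw hd hz y).mul (hd.hφ i z hz y hy).1).mul (smΘ hGR hd hz hy).1) hp.ne',
      fun _ => div_nonneg (sq_nonneg _) hp.le⟩
  · have h1 := (hd.hw i z hz).2
    have h2 := (smΘ hGR hd hz hy).2
    have h3 := (hd.hφ i z hz _ ((hGR.cn ι y hy).2.2.2.1 l hl)).2
    simp only [homΘ hd hz hy hl, ← (hd.hom i z hz y hy l hl).2.2, map_smul, norm_smul,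
      Complex.norm_real, Real.norm_eq_abs, abs_of_pos hl]
    field_simp
  · have h6 := norm_pos_iff.2 hc
    simp only [eqΘ h1 h4, h1, h2, h5, norm_smul, mul_pow, mul_assoc]
    exact mul_div_mul_left _ _ (pow_pos h6 2).ne'

lemma exG (hGR : SGR) (hQP : SQP) (hCH : SCH) (hEX : SEX) (hd : d.Good) (hK : Cone d.K)
    (hKc : IsClosed (d.K ∪ {0})) (e : δ) (k : Fin N) (L : ℂ →L[ℝ] ℝ) :
    ∃ A : E N → ℝ, ContDiffOn ℝ ∞ A (E0 N) ∧ Inv A ∧ (False → ∀ Z, 0 ≤ A Z) ∧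
      ∀ i, ∀ z ∈ d.D i, ∀ y ∈ cone ι, A (d.Φ i z y) =
        L (d.Γ i e (z, y) * d.Φ i z y k / (d.Θ i z y : ℝ)) := by
  refine extK hGR hQP hCH hEX hd hK hKc
    (fun i p => L (d.Γ i e p * d.Φ i p.1 p.2 k / (d.Θ i p.1 p.2 : ℝ))) False
    (fun i z hz y hy => ⟨?_, False.elim⟩) (fun i z hz y hy l hl => ?_)
    fun i j z hz z' hz' y hy y' hy' c hc h1 _ h3 h4 _ => ?_
  · have a1 : ContDiffAt ℝ ∞ (d.Γ i e) (z, y) := (hd.hΓ i e z hz y).contDiffAt.restrict_scalars ℝ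
    have a2 : ContDiffAt ℝ ∞ (fun p : ℂ × V ι => d.Φ i p.1 p.2 k) (z, y) :=
      ContDiffAt.comp (z, y) (g := fun Z : E N => Z k)
        (((EuclideanSpace.proj k : E N →L[ℂ] ℂ).contDiff.restrict_scalars ℝ).contDiffAt)
        (smΦ hd hz y)
    have a3 : ContDiffAt ℝ ∞ (fun p : ℂ × V ι => (((d.Θ i p.1 p.2)⁻¹ : ℝ) : ℂ)) (z, y) :=
      Complex.ofRealCLM.contDiff.contDiffAt.comp (z, y)
        ((smΘ hGR hd hz hy).1.inv (smΘ hGR hd hz hy).2.ne')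
    have a4 := L.contDiff.contDiffAt.comp (z, y) ((a1.mul a2).mul a3)
    simp only [Complex.ofReal_inv, ← div_eq_mul_inv] at a4
    exact a4
  · have h2 : ((d.Θ i z y : ℝ) : ℂ) ≠ 0 := by exact_mod_cast (smΘ hGR hd hz hy).2.ne'
    have h3 : (l : ℂ) ≠ 0 := by exact_mod_cast hl.ne'
    simp only [homΘ hd hz hy hl, (hd.hom i z hz y hy l hl).1 e, map_smul, PiLp.smul_apply,
      smul_eq_mul]
    congr 1
    push_cast
    field_simp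
  · simp only [eqΘ h1 h4, h1, ← h3 e, PiLp.smul_apply, smul_eq_mul]
    congr 1
    ring

lemma Bsmul (hGR : SGR) (c : ℂ) (y : V ι) :
    B (c • y) (c • y) = c * c * B y y ∧
      (B (c • y) (cj (c • y))).re = ‖c‖ ^ 2 * (B y (cj y)).re := by
  have h1 : ∀ (a : ℂ) (u w : V ι), B (a • u) w = a * B u w := fun a u w =>
    (hGR.bil ι u u w a).2.2.2.1
  have h2 : ∀ u w : V ι, B u w = B w u := fun u w => (hGR.bil ι u w w 0).1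
  constructor
  · rw [h1, h2, h1, mul_assoc]
  · rw [h1, (hGR.bil ι y y y c).2.2.2.2.2.2.2.1, h2, h1, h2, ← mul_assoc, Complex.mul_conj,
      Complex.re_ofReal_mul, Complex.normSq_eq_norm_sq]

lemma nonnegB (y : V ι) (h : B y y = 0) : 0 ≤ (B y (cj y)).re := by
  have h1 : y.1 * y.1 = ∑ k, y.2.1 k * y.2.2 k := by
    simp only [B, mul_comm (y.2.2 _), ← two_mul, ← Finset.mul_sum] at h
    linear_combination -h
  have h2 : ‖y.1‖ ^ 2 ≤ (∑ k, (‖y.2.1 k‖ ^ 2 + ‖y.2.2 k‖ ^ 2)) / 2 := by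
    rw [sq, ← norm_mul, h1, Finset.sum_div]
    refine (norm_sum_le _ _).trans (Finset.sum_le_sum fun k _ => ?_)
    rw [norm_mul]
    nlinarith [sq_nonneg (‖y.2.1 k‖ - ‖y.2.2 k‖)]
  have h3 : B y (cj y) =
      ((-‖y.1‖ ^ 2 + (∑ k, (‖y.2.1 k‖ ^ 2 + ‖y.2.2 k‖ ^ 2)) / 2 : ℝ) : ℂ) := by
    simp only [B, cj, Complex.mul_conj, Complex.normSq_eq_norm_sq]
    push_cast
    rfl
  rw [h3, Complex.ofReal_re]
  linarith

lemma exY (hGR : SGR) (hQP : SQP) (hCH : SCH) (hEX : SEX) (hd : d.Good) (hK : Cone d.K)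
    (hS : Cone d.S) (hKc : IsClosed (d.K ∪ {0})) :
    ∃ (Y : E N → ℝ) (U : Set (E N)), IsOpen U ∧ d.K ⊆ U ∧ ContDiffOn ℝ ∞ Y (E0 N) ∧ Inv Y ∧
      (True → ∀ Z, 0 ≤ Y Z) ∧ ∀ i, ∀ z ∈ d.D i, ∀ y ∈ {y : V ι | y ≠ 0 ∧ B y y = 0},
        d.Φ i z y ∈ U → Y (d.Φ i z y) = (B y (cj y)).re * d.w2 i z / ‖d.Φ i z y‖ ^ 2 := by
  refine ext hQP hCH hEX hd hK hKc {y : V ι | y ≠ 0 ∧ B y y = 0} d.S id contDiff_id hS ?_
    (fun i z hz y hy => ⟨i, z, hz, y, hy.1, hy.2, rfl⟩)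
    (fun x hx u hu => ⟨((hQP ι x hx).1 u hu).2.1, ((hQP ι x hx).1 u hu).1⟩)
    (fun x hx u hu Z P h1 _ hZ => ⟨h1.1 hZ, rfl⟩)
    (fun i p => (B p.2 (cj p.2)).re * d.w2 i p.1 / ‖d.Φ i p.1 p.2‖ ^ 2) True
    (fun i z hz y hy => ⟨?_, fun _ => ?_⟩) fun i j z hz z' hz' y hy y' hy' c hc h => ?_
  · rintro Z ⟨i, z, hz, y, h1, h2, rfl⟩
    exact ⟨i, z, hz, y, ⟨h1, h2⟩, 1, one_ne_zero, (one_smul _ _).symm⟩
  · obtain ⟨Q, hQ⟩ := hGR.form ι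
    have a1 : ContDiff ℝ ∞ (fun q : V ι × V ι => Q q.1 q.2) :=
      (Q.isBoundedBilinearMap.contDiff (n := ∞)).restrict_scalars ℝ
    have a2 : ContDiff ℝ ∞ (fun p : ℂ × V ι => (B p.2 (cj p.2)).re) := by
      have := Complex.reCLM.contDiff.comp
        (a1.comp ((contDiff_snd (E := ℂ)).prodMk (smcj.comp contDiff_snd)))
      simp only [Function.comp_def, hQ] at this
      exact this
    exact (a2.contDiffAt.mul (smw hd hz y)).div ((smΦ hd hz y).norm_sq ℂ)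
      (pow_pos (neΦ hd hz hy.1) 2).ne'
  · exact div_nonneg (mul_nonneg (nonnegB y hy.2) (hd.hw i z hz).2.le) (sq_nonneg _)
  · have hB : B (c • y') (c • y') = 0 := by rw [(Bsmul hGR c y').1, hy'.2, mul_zero]
    obtain ⟨c₀, G, hc₀, hG, h1, h2, -⟩ := hd.compat i j z hz z' hz' y (c • y') hy.1 hy.2 hB
      (by rw [h, map_smul])
    have h4 : c₀ • G y = c • y' := hd.inj j z' hz' (by rw [map_smul, map_smul, ← h1, h])
    have h5 : ‖c₀‖ ^ 2 * (B y (cj y)).re = ‖c‖ ^ 2 * (B y' (cj y')).re := by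
      rw [← (Bsmul hGR c y').2, ← h4, (Bsmul hGR c₀ (G y)).2, ← hG.real, hG.orth]
    have h6 := norm_pos_iff.2 hc
    simp only [h, h2, norm_smul, mul_pow]
    rw [← mul_assoc, mul_comm _ (‖c₀‖ ^ 2), h5, mul_assoc]
    exact mul_div_mul_left _ _ (pow_pos h6 2).ne'

end Glx

theorem sgl (hGR : SGR) (hQP : SQP) (hKC : SKC) (hCH : SCH) (hEX : SEX) : SGL := by
  intro ι _ _ N J δ _ d hd
  obtain ⟨-, hK, hS, -, hKc, -⟩ := hKC ι N J δ d hd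
  obtain ⟨A, hA1, hA2, hA3, hA4⟩ := Glx.exA hGR hQP hCH hEX hd hK hKc
  obtain ⟨Y, U, hU, hKU, hY1, hY2, hY3, hY4⟩ := Glx.exY hGR hQP hCH hEX hd hK hS hKc
  choose G₁ h1 h2 _ h3 using fun e k => Glx.exG hGR hQP hCH hEX hd hK hKc e k Complex.reCLM
  choose G₂ h4 h5 _ h6 using fun e k => Glx.exG hGR hQP hCH hEX hd hK hKc e k Complex.imCLM
  refine ⟨U, A, Y, fun e k Z => (G₁ e k Z : ℂ) + (G₂ e k Z : ℂ) * I, hU, hKU,
    ⟨hA1, hA2, hA3 trivial⟩, ⟨hY1, hY2, hY3 trivial⟩, fun e k => ⟨?_, fun c hc Z => ?_⟩,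
    fun i z hz x hx => ⟨hA4 i z hz x hx, fun e k => ?_⟩,
    fun i z hz x h0 hx h => hY4 i z hz x ⟨h0, hx⟩ h⟩
  · exact (Complex.ofRealCLM.contDiff.comp_contDiffOn (h1 e k)).add
      ((Complex.ofRealCLM.contDiff.comp_contDiffOn (h4 e k)).mul contDiffOn_const)
  · simp only [h2 e k c hc Z, h5 e k c hc Z]
  · simp only [h3 e k i z hz x hx, h6 e k i z hz x hx, Complex.reCLM_apply, Complex.imCLM_apply,
      Complex.re_add_im]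

end Pool.Agent.MP_fcd29e_an.H42
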